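import Pool.Agent.H4.SE.Targets

/-!
# MP_45b854_al, board sae_modules: the star inequality (module PS).  Written by helper49,
following helper1's `Pool/Agent/H1/SAE/Star.lean`.
-/

set_option autoImplicit false

open Finset
open scoped Classical

namespace Pool.Agent.H49.SE4

open Pool.Agent.H4.SE

theorem vl_eq {α : Type} (ρ : Finset α → ℝ) (l : ℝ) (P : Finset (Finset α)) :
    vl ρ l P = ∑ X ∈ P, ρ X - l * P.card := by
  unfold vl
  rw [Finset.sum_sub_distrib]
  simp [mul_comm]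

theorem vl_change {α : Type} (ρ : Finset α → ℝ) (l m : ℝ) (P : Finset (Finset α)) :
    vl ρ l P = vl ρ m P + (m - l) * P.card := by
  rw [vl_eq, vl_eq]; ring

theorem mul_div_self' (L : ℝ) (M : ℕ) (hM : 0 < M) : (M : ℝ) * (L / M) = L := by
  have : (M : ℝ) ≠ 0 := by positivity
  field_simp

/-- upper telescoping bound -/
theorem tel1 {α : Type} (ρ : Finset α → ℝ) (L : ℝ) (A : Finset α) (M : ℕ) (hM : 0 < M)
    (Q : ℕ → Finset (Finset α)) (hQ : ∀ t : ℕ, IsOpt ρ (t * (L / M)) A (Q t))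
    (hi : ∀ P, IsPart A P → ρ A ≤ vl ρ 0 P) (hiv : ∃ P, IsPart A P ∧ vl ρ L P ≤ 0) :
    ρ A ≤ (L / M) * ∑ t ∈ range M, ((Q (t + 1)).card : ℝ) := by
  set m : ℕ → ℝ := fun t => vl ρ (t * (L / M)) (Q t) with hm
  have hMM := mul_div_self' L M hM
  have hm0 : ρ A ≤ m 0 := by
    have := hi (Q 0) (hQ 0).pt
    simpa [hm] using this
  have hmM : m M ≤ 0 := by
    obtain ⟨P', hP', hv⟩ := hiv
    have := (hQ M).mn P' hP'
    have h2 : m M ≤ vl ρ L P' := by
      rw [← hMM]; exact this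
    exact h2.trans hv
  have hstep : ∀ t, m t - m (t + 1) ≤ (L / M) * ((Q (t + 1)).card : ℝ) := by
    intro t
    have h2 := (hQ t).mn (Q (t + 1)) (hQ (t + 1)).pt
    have h3 := vl_change ρ (t * (L / M)) (((t + 1 : ℕ) : ℝ) * (L / M)) (Q (t + 1))
    have h4 : m (t + 1) = vl ρ (((t + 1 : ℕ) : ℝ) * (L / M)) (Q (t + 1)) := rfl
    have h5 : m t = vl ρ (t * (L / M)) (Q t) := rfl
    rw [h3] at h2
    rw [h4, h5]
    push_cast at h2 ⊢
    linarith
  have hsum : ∑ t ∈ range M, (m t - m (t + 1)) = m 0 - m M := Finset.sum_range_sub' m M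
  have h6 : ∑ t ∈ range M, (m t - m (t + 1)) ≤
      ∑ t ∈ range M, (L / M) * ((Q (t + 1)).card : ℝ) := Finset.sum_le_sum fun t _ => hstep t
  rw [Finset.mul_sum]
  linarith

/-- lower telescoping bound -/
theorem tel2 {α : Type} (ρ : Finset α → ℝ) (L : ℝ) (A : Finset α) (M : ℕ) (hM : 0 < M)
    (Q : ℕ → Finset (Finset α)) (hQ : ∀ t : ℕ, IsOpt ρ (t * (L / M)) A (Q t))
    (hii : ∃ P, IsPart A P ∧ vl ρ 0 P ≤ ρ A) (hiii : ∀ P, IsPart A P → 0 ≤ vl ρ L P) :
    (L / M) * ∑ t ∈ range M, ((Q t).card : ℝ) ≤ ρ A := by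
  set m : ℕ → ℝ := fun t => vl ρ (t * (L / M)) (Q t) with hm
  have hMM := mul_div_self' L M hM
  have hm0 : m 0 ≤ ρ A := by
    obtain ⟨P', hP', hv⟩ := hii
    have := (hQ 0).mn P' hP'
    have h2 : m 0 ≤ vl ρ 0 P' := by simpa [hm] using this
    exact h2.trans hv
  have hmM : 0 ≤ m M := by
    have := hiii (Q M) (hQ M).pt
    have h2 : m M = vl ρ L (Q M) := by
      change vl ρ (M * (L / M)) (Q M) = _
      rw [hMM]
    rw [h2]; exact this
  have hstep : ∀ t, (L / M) * ((Q t).card : ℝ) ≤ m t - m (t + 1) := by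
    intro t
    have h2 := (hQ (t + 1)).mn (Q t) (hQ t).pt
    have h3 := vl_change ρ (((t + 1 : ℕ) : ℝ) * (L / M)) (t * (L / M)) (Q t)
    have h4 : m (t + 1) = vl ρ (((t + 1 : ℕ) : ℝ) * (L / M)) (Q (t + 1)) := rfl
    have h5 : m t = vl ρ (t * (L / M)) (Q t) := rfl
    rw [h3] at h2
    rw [h4, h5]
    push_cast at h2 ⊢
    linarith
  have hsum : ∑ t ∈ range M, (m t - m (t + 1)) = m 0 - m M := Finset.sum_range_sub' m M
  have h6 : ∑ t ∈ range M, (L / M) * ((Q t).card : ℝ) ≤ ∑ t ∈ range M, (m t - m (t + 1)) :=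
    Finset.sum_le_sum fun t _ => hstep t
  rw [Finset.mul_sum]
  linarith

/-- subadditivity -/
theorem subadd {α : Type} [DecidableEq α] (ρ : Finset α → ℝ) (V : Finset α) (h0 : ρ ∅ = 0)
    (hmono : ∀ A B, A ⊆ B → B ⊆ V → ρ A ≤ ρ B)
    (hsub : ∀ A B, A ⊆ V → B ⊆ V → ρ (A ∪ B) + ρ (A ∩ B) ≤ ρ A + ρ B)
    (J : Finset (Finset α)) (hJ : ∀ X ∈ J, X ⊆ V) : ρ (J.biUnion id) ≤ ∑ B ∈ J, ρ B := by
  induction J using Finset.induction_on with
  | empty => simp [h0]
  | insert a J ha ih =>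
    have hJ' : ∀ X ∈ J, X ⊆ V := fun X hX => hJ X (Finset.mem_insert_of_mem hX)
    have haV : a ⊆ V := hJ a (Finset.mem_insert_self _ _)
    have hb : J.biUnion id ⊆ V := Finset.biUnion_subset.2 hJ'
    rw [Finset.biUnion_insert, Finset.sum_insert ha]
    have h1 := hsub (id a) (J.biUnion id) haV hb
    have h2 : 0 ≤ ρ (id a ∩ J.biUnion id) := by
      rw [← h0]
      exact hmono _ _ (Finset.empty_subset _) (Finset.inter_subset_left.trans haV)
    have h3 := ih hJ'
    have h4 : ρ (id a) = ρ a := rfl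
    linarith

theorem part_sub {α : Type} {A : Finset α} {P : Finset (Finset α)} (h : IsPart A P) :
    ∀ X ∈ P, X ⊆ A := fun X hX a ha => (h.un a).2 ⟨X, hX, ha⟩

theorem part_union {α : Type} [DecidableEq α] {A : Finset α} {P : Finset (Finset α)}
    (h : IsPart A P) : P.biUnion id = A := by
  ext a
  rw [Finset.mem_biUnion, h.un a]
  rfl

theorem part_ne {α : Type} {A : Finset α} {P : Finset (Finset α)} (h : IsPart A P) :
    ∀ X ∈ P, X.Nonempty := by
  intro X hX
  rw [Finset.nonempty_iff_ne_empty]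
  rintro rfl
  exact h.ne hX

theorem part_card {α : Type} [DecidableEq α] {A : Finset α} {P : Finset (Finset α)}
    (h : IsPart A P) : P.card ≤ A.card := by
  have h1 : (P.biUnion id).card = ∑ X ∈ P, (id X).card :=
    Finset.card_biUnion (fun X hX Y hY hne => h.dis X hX Y hY hne)
  rw [part_union h] at h1
  rw [h1, Finset.card_eq_sum_ones]
  exact Finset.sum_le_sum fun X hX => (part_ne h X hX).card_pos

theorem part_singletons {α : Type} [DecidableEq α] (A : Finset α) :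
    IsPart A (A.image fun a => ({a} : Finset α)) := by
  refine ⟨?_, ?_, ?_⟩
  · intro h
    obtain ⟨a, _, ha⟩ := Finset.mem_image.1 h
    exact Finset.singleton_ne_empty a ha
  · intro X hX Y hY hne
    obtain ⟨a, _, rfl⟩ := Finset.mem_image.1 hX
    obtain ⟨b, _, rfl⟩ := Finset.mem_image.1 hY
    rw [Finset.disjoint_singleton]
    rintro rfl
    exact hne rfl
  · intro a
    constructor
    · intro ha
      exact ⟨{a}, Finset.mem_image_of_mem _ ha, Finset.mem_singleton_self a⟩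
    · rintro ⟨X, hX, haX⟩
      obtain ⟨b, hb, rfl⟩ := Finset.mem_image.1 hX
      rw [Finset.mem_singleton] at haX
      rw [haX]; exact hb

theorem exists_whole {α : Type} (ρ : Finset α → ℝ) (h0 : ρ ∅ = 0) (A : Finset α) :
    ∃ P, IsPart A P ∧ vl ρ 0 P ≤ ρ A := by
  by_cases hA : A = ∅
  · subst hA
    refine ⟨∅, ⟨Finset.notMem_empty _, fun X hX => absurd hX (Finset.notMem_empty _), ?_⟩, ?_⟩
    · intro a
      constructor
      · intro h; exact absurd h (Finset.notMem_empty _)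
      · rintro ⟨X, hX, _⟩; exact absurd hX (Finset.notMem_empty _)
    · simp [vl, h0]
  · refine ⟨{A}, ⟨?_, ?_, ?_⟩, ?_⟩
    · intro h
      exact hA (Finset.mem_singleton.1 h).symm
    · intro X hX Y hY hne
      rw [Finset.mem_singleton] at hX hY
      exact absurd (hX.trans hY.symm) hne
    · intro a
      simp
    · simp [vl]

theorem pf_PS (hPO : T_PO) (hPR : T_PR) : T_PS := by
  intro α β _ _ r V E tl hd ρ L κ _ hE hL h0 hmono hsub h1 hinv hκ
  -- nonempty sets
  have hLne : ∀ B : Finset α, B ⊆ V → B.Nonempty → L ≤ ρ B := by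
    rintro B hBV ⟨a, ha⟩
    rw [← h1 a (hBV ha)]
    exact hmono _ _ (Finset.singleton_subset_iff.2 ha) hBV
  have htlV : ∀ i, ∀ B, B ⊆ E i → B.image tl ⊆ V := by
    intro i B hB a ha
    obtain ⟨e, he, rfl⟩ := Finset.mem_image.1 ha
    exact (hE i e (hB he)).1
  set σ : Finset β → ℝ := fun B => ρ (B.image tl) with hσ
  have hσ0 : σ ∅ = 0 := by simp [hσ, h0]
  -- conditions for the telescoping
  have hi : ∀ P, IsPart V P → ρ V ≤ vl ρ 0 P := by
    intro P hP
    have h2 := subadd ρ V h0 hmono hsub P (part_sub hP)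
    rw [part_union hP] at h2
    simpa [vl] using h2
  have hiv : ∃ P, IsPart V P ∧ vl ρ L P ≤ 0 := by
    refine ⟨_, part_singletons V, ?_⟩
    unfold vl
    refine le_of_eq (Finset.sum_eq_zero fun X hX => ?_)
    obtain ⟨a, ha, rfl⟩ := Finset.mem_image.1 hX
    rw [h1 a ha]; ring
  have hii : ∀ i, ∃ P, IsPart (E i) P ∧ vl σ 0 P ≤ σ (E i) := fun i => exists_whole σ hσ0 (E i)
  have hiii : ∀ i, ∀ P, IsPart (E i) P → 0 ≤ vl σ L P := by
    intro i P hP
    unfold vl
    refine Finset.sum_nonneg fun B hB => ?_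
    have := hLne (B.image tl) (htlV i B (part_sub hP B hB)) ((part_ne hP B hB).image tl)
    have h2 : σ B = ρ (B.image tl) := rfl
    rw [h2]; linarith
  -- main count at one value of the parameter
  have main : ∀ l : ℝ, ∃ (Q : Finset (Finset α)) (P : Fin r → Finset (Finset β)),
      IsOpt ρ l V Q ∧ (∀ i, IsOpt σ l (E i) (P i)) ∧ κ + Q.card ≤ (∑ i, (P i).card) + 1 := by
    intro l
    obtain ⟨Q, hQ⟩ := hPO α ρ l V
    choose P hP using fun i => hPO β σ l (E i)
    refine ⟨Q, P, hQ.op, fun i => (hP i).op, hκ Q P hQ.op.pt (fun i => (hP i).op.pt) ?_⟩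
    intro i B hB
    refine ⟨hPR α β ρ l V (E i) tl hsub (fun e he => (hE i e he).1) Q (P i) hQ (hP i).op B hB,
      hPR α β ρ l V (E i) hd hsub (fun e he => (hE i e he).2) Q (P i) hQ ?_ B hB⟩
    -- optimality for the heads
    have hv : ∀ P', IsPart (E i) P' → vl (fun B => ρ (B.image hd)) l P' = vl σ l P' := by
      intro P' hP'
      unfold vl
      refine Finset.sum_congr rfl fun X hX => ?_
      have := hinv i X (part_sub hP' X hX)
      change ρ (X.image hd) - l = ρ (X.image tl) - l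
      rw [this]
    refine ⟨(hP i).op.pt, fun P' hP' => ?_⟩
    rw [hv _ (hP i).op.pt, hv _ hP']
    exact (hP i).op.mn P' hP'
  -- telescoping for every M
  have hM : ∀ M : ℕ, 0 < M → (((κ : ℝ) - 1) * L + ρ V - ∑ i, σ (E i)) * M ≤
      L * V.card := by
    intro M hMpos
    choose Q P hQ hP hc using fun t : ℕ => main (t * (L / M))
    have hV := tel1 ρ L V M hMpos Q hQ hi hiv
    have hE' : ∀ i, (L / M) * ∑ t ∈ range M, (((P t) i).card : ℝ) ≤ σ (E i) := fun i =>
      tel2 σ L (E i) M hMpos (fun t => P t i) (fun t => hP t i) (hii i) (hiii i)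
    have hMr : (0 : ℝ) < M := by exact_mod_cast hMpos
    have hLM : 0 ≤ L / M := by positivity
    have hsumE : (L / M) * ∑ t ∈ range M, ∑ i, (((P t) i).card : ℝ) ≤ ∑ i, σ (E i) := by
      rw [Finset.sum_comm, Finset.mul_sum]
      exact Finset.sum_le_sum fun i _ => hE' i
    have hcR : ∀ t, ((Q t).card : ℝ) + κ - 1 ≤ ∑ i, (((P t) i).card : ℝ) := by
      intro t
      have := hc t
      have h2 : ((κ + (Q t).card : ℕ) : ℝ) ≤ ((∑ i, ((P t) i).card + 1 : ℕ) : ℝ) := by
        exact_mod_cast this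
      push_cast at h2
      linarith
    have hcardV : ∀ t, ((Q t).card : ℝ) ≤ V.card := by
      intro t
      exact_mod_cast part_card (hQ t).pt
    have hshift : ∑ t ∈ range M, ((Q (t + 1)).card : ℝ) =
        ∑ t ∈ range M, ((Q t).card : ℝ) + (Q M).card - (Q 0).card := by
      have h2 := Finset.sum_range_succ (fun t => ((Q t).card : ℝ)) M
      have h3 := Finset.sum_range_succ' (fun t => ((Q t).card : ℝ)) M
      linarith
    have hlow : ∑ t ∈ range M, ((Q t).card : ℝ) + M * ((κ : ℝ) - 1) ≤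
        ∑ t ∈ range M, ∑ i, (((P t) i).card : ℝ) := by
      have h2 : ∑ t ∈ range M, (((Q t).card : ℝ) + κ - 1) ≤
          ∑ t ∈ range M, ∑ i, (((P t) i).card : ℝ) :=
        Finset.sum_le_sum fun t _ => hcR t
      have h3 : ∑ t ∈ range M, (((Q t).card : ℝ) + κ - 1) =
          ∑ t ∈ range M, ((Q t).card : ℝ) + M * ((κ : ℝ) - 1) := by
        have h4 : ∀ t ∈ range M, (((Q t).card : ℝ) + κ - 1) =
            ((Q t).card : ℝ) + ((κ : ℝ) - 1) := fun t _ => by ring
        rw [Finset.sum_congr rfl h4, Finset.sum_add_distrib, Finset.sum_const, Finset.card_range,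
          nsmul_eq_mul]
      linarith
    have hP0 : (0 : ℝ) ≤ ((Q 0).card : ℝ) := by positivity
    have hPM := hcardV M
    have e1 : (L / M) * (∑ t ∈ range M, ((Q (t + 1)).card : ℝ)) ≤
        (L / M) * (∑ t ∈ range M, ∑ i, (((P t) i).card : ℝ) -
          M * ((κ : ℝ) - 1) + V.card) := by
      apply mul_le_mul_of_nonneg_left _ hLM
      rw [hshift]; linarith
    have e2 : ρ V ≤ ∑ i, σ (E i) - (L / M) * (M * ((κ : ℝ) - 1)) + (L / M) * V.card := by
      have h5 : (L / M) * (∑ t ∈ range M, ∑ i, (((P t) i).card : ℝ) -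
          M * ((κ : ℝ) - 1) + V.card) =
          (L / M) * (∑ t ∈ range M, ∑ i, (((P t) i).card : ℝ)) -
          (L / M) * (M * ((κ : ℝ) - 1)) + (L / M) * V.card := by ring
      linarith
    have e3 : (L / M) * (M * ((κ : ℝ) - 1)) = ((κ : ℝ) - 1) * L := by
      have : (M : ℝ) ≠ 0 := hMr.ne'
      field_simp
    rw [e3] at e2
    have e4 : (((κ : ℝ) - 1) * L + ρ V - ∑ i, σ (E i)) ≤ (L / M) * V.card := by linarith
    have e5 : (((κ : ℝ) - 1) * L + ρ V - ∑ i, σ (E i)) * M ≤ (L / M) * V.card * M :=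
      mul_le_mul_of_nonneg_right e4 hMr.le
    have e6 : (L / M) * V.card * M = L * V.card := by
      have : (M : ℝ) ≠ 0 := hMr.ne'
      field_simp
    rw [e6] at e5
    exact e5
  -- let M tend to infinity
  by_contra hcon
  have hpos : 0 < ((κ : ℝ) - 1) * L + ρ V - ∑ i, σ (E i) := by
    have h2 : ¬ ((κ : ℝ) - 1) * L + ρ V ≤ ∑ i, σ (E i) := hcon
    linarith [not_le.1 h2]
  obtain ⟨M, hMM⟩ := exists_nat_gt
    (L * V.card / (((κ : ℝ) - 1) * L + ρ V - ∑ i, σ (E i)))
  have hMpos : 0 < M := by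
    have h2 : (0 : ℝ) ≤ L * V.card / (((κ : ℝ) - 1) * L + ρ V - ∑ i, σ (E i)) :=
      div_nonneg (mul_nonneg hL (Nat.cast_nonneg _)) hpos.le
    have h3 : (0 : ℝ) < M := lt_of_le_of_lt h2 hMM
    exact_mod_cast h3
  have h2 := hM M hMpos
  rw [div_lt_iff₀ hpos] at hMM
  linarith [mul_comm (M : ℝ) (((κ : ℝ) - 1) * L + ρ V - ∑ i, σ (E i))]

end Pool.Agent.H49.SE4
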